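import Pool.Agent.Helper31.MHS.Goals
import Pool.Agent.Helper11.MH.MCM

/-!
# Project MHS, packet MHS-COD: the codes of the functions
-/

namespace Pool.Agent.Helper95.MHS

open Pool.Agent.Helper65.LinSpace Pool.Agent.Helper78.Mpc Pool.Agent.Helper28.Ram
open Pool.Agent.Helper20.MH (MultiHead ParM FnsM)
open Pool.Agent.Helper81.Sus2 (Decomp CodE)
open Pool.Agent.Helper31.MHS

/-- Packet MHS-COD. -/
theorem cod : COD_stmt := by
  intro D K A E
  obtain ⟨eA, cA, hA⟩ := fnN_spec A.addr_lin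
  obtain ⟨eN, cN, hN⟩ := fnN_spec A.next_lin
  obtain ⟨eW, cW, hW⟩ := fnN_spec A.write_lin
  obtain ⟨eD, cD, hD⟩ := fnN_spec E.addr_lin
  obtain ⟨eX, cX, hX⟩ := fnN_spec E.next_lin
  refine ⟨eA, eN, eW, eD, eX, (cA + cN + (cW + cD + cX) + 1) * (4 * K + 12), ?_⟩
  intro w y P hP heD heX hΛ hβ hB
  have h2 : (cD + cX) * 2 ≤ (cA + cN + (cW + cD + cX) + 1) * (4 * K + 12) :=
    Nat.mul_le_mul (by omega) (by omega)
  have h3 : (cD + cX + 1) * 12 ≤ (cA + cN + (cW + cD + cX) + 1) * (4 * K + 12) :=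
    Nat.mul_le_mul (by omega) (by omega)
  have hgood : ∀ (f : List Bool → List Bool) (e' c' : ℕ), c' ≤ cD + cX →
      (∀ (w : List Bool) (S Λ β B : ℕ), c' * (S + w.length + 2) ≤ Λ →
        c' + Λ + S + w.length + 1 ≤ β → 2 ^ (S + 1) ≤ B →
        fnN e' S Λ β B (num w) = if (f w).length ≤ S then num (f w) else 0) →
      ∀ u : List Bool, u.length ≤ 2 * P.Z + 1 + 7 →
        fnN e' P.Z P.m.Λ P.m.β P.m.B (num u) =
          if (f u).length ≤ P.Z then num (f u) else 0 := by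
    intro f e' c' hc' hf u hu
    refine hf u _ _ _ _ ?_ ?_ ?_
    · refine le_trans ?_ hΛ
      calc c' * (P.Z + u.length + 2)
          ≤ (cD + cX) * (2 * (8 * P.Z + 8)) := Nat.mul_le_mul hc' (by omega)
        _ = (cD + cX) * 2 * (8 * P.Z + 8) := by ring
        _ ≤ _ := Nat.mul_le_mul_right _ h2
    · omega
    · exact le_trans (Nat.pow_le_pow_right (by norm_num) (by omega)) hB
  refine ⟨Pool.Agent.Helper11.MH.fns hP (c1 := cA + cN + (cW + cD + cX)) rfl
    (cA := cA) (cN := cN) (cW := cW + cD + cX) rfl hA hN ?_, ?_, ?_⟩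
  · intro u S Λ β B b1 b2 b3
    refine hW u S Λ β B (le_trans (Nat.mul_le_mul_right _ (by omega)) b1) (by omega) b3
  · intro σ hσ
    have hσ' : σ.length ≤ P.Z := hσ
    show fnN P.eD P.Z P.m.Λ P.m.β P.m.B (num σ) = _
    rw [heD]
    exact hgood _ _ _ (by omega) hD σ (by omega)
  · intro σ u hσ hu
    have hσ' : σ.length ≤ P.Z := hσ
    show fnN P.eX P.Z P.m.Λ P.m.β P.m.B (catN (sdN (num σ)) (num u)) = _
    rw [heX, sdN_num, catN_num]
    refine hgood _ _ _ (by omega) hX _ ?_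
    rw [List.length_append, length_sd]
    omega

end Pool.Agent.Helper95.MHS
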